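import Pool.Agent.helper97.IRO.Spec

set_option autoImplicit false

/-! # Row iro:CT3: conjugates of positive cofinal elements are positive -/

open MeasureTheory Pool.Agent.LOF

namespace Pool.Agent.IRO

lemma CT3_pow {G : Type} [Group G] (h f : G) (m : ℕ) :
    (h⁻¹ * f⁻¹ * h) ^ m = h⁻¹ * (f ^ m)⁻¹ * h := by
  induction m with
  | zero => simp
  | succ m ih =>
    rw [pow_succ, ih, pow_succ' f, mul_inv_rev]
    simp only [mul_assoc, mul_inv_cancel_left]

theorem CT3 (h1 : AL_stmt) (h2 : CT1_stmt) : CT3_stmt := by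
  intro G _ P hP hC H f h hcof hf hh
  rcases hP.tri' (h⁻¹ * f * h) with h3 | h3 | h3
  · exact h3
  · exfalso
    have h4 : f = 1 := by
      have h5 : f = h * (h⁻¹ * f * h) * h⁻¹ := by group
      rw [h3] at h5
      rw [h5]; group
    rw [h4] at hf
    exact hP.ne hf
  · exfalso
    have h4 : P (h⁻¹ * f⁻¹ * h) := by
      have : (h⁻¹ * f * h)⁻¹ = h⁻¹ * f⁻¹ * h := by group
      rwa [this] at h3
    have h5 : ∀ n : ℕ, 0 < n → P (h⁻¹ * (f ^ n)⁻¹ * h) := by
      intro n hn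
      rw [← CT3_pow]
      exact hP.pow h4 hn
    rcases hP.tri' h with h6 | h6 | h6
    · -- `P h`
      obtain ⟨n, hn⟩ := h1 G P hP hC H f h⁻¹ hcof hf (H.inv_mem hh)
      rcases Nat.eq_zero_or_pos n with h0 | h0
      · rw [h0, pow_zero, one_mul] at hn
        exact hP.anti h h6 hn
      · have h7 := h2 G P hP hC (f ^ n * h⁻¹) h hn h6
        have h8 : h⁻¹ * (f ^ n * h⁻¹) * h ^ 2 = h⁻¹ * f ^ n * h := by
          rw [pow_two]
          group
        rw [h8] at h7
        have h9 : (h⁻¹ * f ^ n * h)⁻¹ = h⁻¹ * (f ^ n)⁻¹ * h := by group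
        refine hP.anti _ h7 ?_
        rw [h9]
        exact h5 n h0
    · rw [h6] at h4
      have h7 : (1 : G)⁻¹ * f⁻¹ * 1 = f⁻¹ := by group
      rw [h7] at h4
      exact hP.anti f hf h4
    · obtain ⟨n, hn⟩ := h1 G P hP hC H f h hcof hf hh
      rcases Nat.eq_zero_or_pos n with h0 | h0
      · rw [h0, pow_zero, one_mul] at hn
        exact hP.anti h hn h6
      · refine hP.anti _ hn ?_
        have h7 : (f ^ n * h)⁻¹ = (h⁻¹ * (f ^ n)⁻¹ * h) * h⁻¹ := by group
        rw [h7]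
        exact hP.mul _ _ (h5 n h0) h6

end Pool.Agent.IRO
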